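import Pool.Agent.V1153.GH.Hyp
import Pool.Agent.V1153.XS.Mv

/-!
Maps to general hypersurfaces.
-/

set_option autoImplicit false

namespace Pool.Agent.V1153.GH

open MvPolynomial Pool.Agent.V1153.UG Pool.Agent.V1153.XS

variable {n : ℕ}

theorem degLe_hyp {d : ℕ} {F : MvPolynomial (Fin (n + 1)) ℂ} (hF : F.IsHomogeneous d) :
    DegLe d {F} 1 :=
  ⟨fun G hG => ⟨d, le_rfl, by rw [Set.mem_singleton_iff.1 hG]; exact hF⟩,
    ⟨0, Nat.zero_le _, isHomogeneous_one _ _⟩⟩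

theorem mem_hyp {F : MvPolynomial (Fin (n + 1)) ℂ} {x : Fin (n + 1) → ℂ} (h : eval x F = 0) :
    ∀ G ∈ Ideal.span {F}, eval x G = 0 := by
  have h1 : Ideal.span {F} ≤ RingHom.ker (eval x) := by
    rw [Ideal.span_le, Set.singleton_subset_iff]
    exact h
  exact fun G hG => h1 hG

/-- proportional vectors -/
theorem prop_of {A : Type} {g : A → Fin (n + 1) → ℂ} (h0 : ∀ z, g z ≠ 0)
    (h : ¬ ∃ z w j l, g z j * g w l ≠ g z l * g w j) (z w : A) : ∃ c : ℂ, g z = c • g w := by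
  push Not at h
  obtain ⟨l, hl⟩ : ∃ l, g w l ≠ 0 := by
    by_contra hcon
    push Not at hcon
    exact h0 w (funext hcon)
  refine ⟨g z l / g w l, funext fun j => ?_⟩
  rw [Pi.smul_apply, smul_eq_mul, div_mul_eq_mul_div, eq_div_iff hl]
  exact h z w j l

end Pool.Agent.V1153.GH
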