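import Pool.Agent.TH182.VD.Main

/-!
Curves of the punctured line in the strata of generic hypersurfaces in the projective space: the
coefficients need only be algebraically independent over one subfield.
-/

set_option autoImplicit false

namespace Pool.Agent.V1153.GH

open MvPolynomial
open Pool.Agent.TH182.VG (IsDer)
open Pool.Agent.TH143 Pool.Agent.TH182.VD

variable {N q : ℕ}

theorem rel_exists {k₁ : Subfield ℂ} (φ : Fin (N + 1) → KK) (σ : Fin (N + 2) → Fin (N + 1)) :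
    ∃ (n : ℕ) (Φ : MvPolynomial (Fin (N + 2)) ℂ), Φ ≠ 0 ∧ Φ.IsHomogeneous n ∧
      (∀ α, coeff α Φ ∈ k₁) ∧ aeval (fun j => φ (σ j)) Φ = 0 := by
  classical
  obtain ⟨a, b, hab, hσ⟩ := Fintype.exists_ne_map_eq_of_card_lt σ (by simp)
  refine ⟨1, X a - X b, ?_, (isHomogeneous_X _ _).sub (isHomogeneous_X _ _), ?_, ?_⟩
  · intro h0
    rw [sub_eq_zero] at h0
    exact hab (X_injective h0)
  · intro α
    rw [coeff_sub, coeff_X, coeff_X]
    split_ifs
    · rw [sub_self]; exact k₁.zero_mem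
    · rw [sub_zero]; exact k₁.one_mem
    · rw [zero_sub]; exact k₁.neg_mem k₁.one_mem
    · rw [sub_self]; exact k₁.zero_mem
  · rw [map_sub, aeval_X, aeval_X, hσ, sub_self]

theorem no_gm (k₁ : Subfield ℂ) (d : Fin q → ℕ) (F : Fin q → MvPolynomial (Fin (N + 1)) ℂ)
    (hF : ∀ i, (F i).IsHomogeneous (d i))
    (hind : AlgebraicIndependent k₁ (fun x : CI N d => coeff x.2.1 (F x.1)))
    (Z : Finset (Fin q)) (hZ : 2 * N + 1 ≤ ∑ i, d i + Z.card) (P : Fin (N + 1) → Polynomial ℂ) :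
    ¬ IsGmCurve (fun i : {i // i ∈ Z} => F i.1) (∏ i ∈ Finset.univ \ Z, F i) P := by
  classical
  intro hP
  have hQh : (∏ i ∈ Finset.univ \ Z, F i).IsHomogeneous (∑ i ∈ Finset.univ \ Z, d i) :=
    IsHomogeneous.prod _ _ _ fun i _ => hF i
  have hFh : ∀ i : {i // i ∈ Z}, ∃ d', (F i.1).IsHomogeneous d' := fun i => ⟨d i.1, hF i.1⟩
  have hcc : ∃ P' : Fin (N + 1) → Polynomial ℂ, (∀ t, ∃ j, (P' j).eval t ≠ 0) ∧
      IsGmCurve (fun i : {i // i ∈ Z} => F i.1) (∏ i ∈ Finset.univ \ Z, F i) P' :=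
    coprime_curve hFh hQh hP
  obtain ⟨φ, hcop, hφ⟩ := hcc
  have hmemZ : ∀ t, t ≠ 0 → ∀ i ∈ Z, eval (fun j => (φ j).eval t) (F i) = 0 := by
    intro t ht i hi
    have h1 := (hφ.mem t ht).1 ⟨i, hi⟩
    exact h1
  have hmemO : ∀ t, t ≠ 0 → eval (fun j => (φ j).eval t) (∏ i ∈ Finset.univ \ Z, F i) ≠ 0 := by
    intro t ht
    exact (hφ.mem t ht).2
  have hZφ : ∀ i ∈ Z, aeval φ (F i) = 0 := by
    intro i hi
    apply Pool.Agent.TH182.VD.aeval_zero
    intro t ht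
    exact hmemZ t ht i hi
  have hCφ : ∀ i, ∃ (c : ℂ) (a : ℕ), i ∉ Z → c ≠ 0 ∧
      aeval φ (F i) = Polynomial.C c * Polynomial.X ^ a := by
    intro i
    by_cases hi : i ∈ Z
    · exact ⟨0, 0, fun h => absurd hi h⟩
    · obtain ⟨c, a, h1, h2⟩ := eq_C_mul_X_pow (p := aeval φ (F i)) (by
        intro t ht h0
        rw [eval_aeval] at h0
        apply (hφ.mem t ht).2
        rw [map_prod]
        exact Finset.prod_eq_zero (Finset.mem_sdiff.mpr ⟨Finset.mem_univ i, hi⟩) h0)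
      exact ⟨c, a, fun _ => ⟨h1, h2⟩⟩
  choose c a hca using hCφ
  have hD : ∀ (i : Fin q) (α : Fin (N + 1) →₀ ℕ), ∃ D : ℂ → ℂ, IsDer (RingHom.id ℂ) D ∧
      (∀ c ∈ k₁, D c = 0) ∧ ∀ h : α.degree = d i,
        D (coeff α (F i)) = 1 ∧ ∀ x : CI N d, x ≠ ⟨i, α, h⟩ → D (coeff x.2.1 (F x.1)) = 0 := by
    intro i α
    by_cases h : α.degree = d i
    · obtain ⟨D, h1, h2, h3, h4⟩ := exists_dualK hind ⟨i, α, h⟩
      exact ⟨D, h1, h2, fun _ => ⟨h3, h4⟩⟩
    · refine ⟨fun _ => 0, ⟨fun _ _ => by rw [add_zero], fun _ _ => by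
        rw [mul_zero, mul_zero, add_zero]⟩, fun _ _ => rfl, fun h' => absurd h' h⟩
  choose D hD1 hD2 hD3 using hD
  let T : Dat N q :=
    { d := d
      F := F
      φ := φ
      Z := Z
      c := c
      a := a
      D := D
      hF := hF
      hsupp := fun i α h => hind.ne_zero ⟨i, α, h⟩
      hD := hD1
      hD1 := fun i α h => (hD3 i α h).1
      hD0 := fun i α i' β hα hβ hne => by
        refine (hD3 i α hα).2 ⟨i', β, hβ⟩ ?_
        intro h
        rw [Sigma.mk.injEq] at h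
        obtain ⟨rfl, h⟩ := h
        rw [heq_eq_eq, Subtype.mk.injEq] at h
        rcases hne with h' | h'
        · exact h' rfl
        · exact h' h
      hZ := hZφ
      hc := fun i hi => (hca i hi).1
      ha := fun i hi => (hca i hi).2 }
  have hnc : ∃ j k, φ j * Polynomial.derivative (φ k) ≠ φ k * Polynomial.derivative (φ j) := by
    by_contra hcon
    push Not at hcon
    obtain ⟨s, t, -, -, j, k, hjk⟩ := hφ.nonconst
    exact hjk (wronsk (hcon j k) s t)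
  have hfin := T.ineq (m := N) (k₁ := k₁) hD2 (rel_exists fun j => io (φ j)) hcop hnc
  have hfin' : ∑ i, d i + Z.card ≤ 2 * N := hfin
  omega

end Pool.Agent.V1153.GH
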