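import Pool.Agent.V1153.UG.Unf
import Pool.Agent.V1153.UG.Conv
import Pool.Agent.V1153.UG.Spc
import Pool.Agent.V1153.GH.Pn

/-!
General hypersurfaces in the projective space: there are no curves of the punctured line of bounded
degree in their strata.
-/

set_option autoImplicit false

namespace Pool.Agent.V1153.GH

open MvPolynomial Pool.Agent.V1153.UG
open Pool.Agent.TH143 (IsGmCurve)
open Pool.Agent.TH182.VD (CI)

variable {n q : ℕ}

theorem coeff_sqp {δ : ℕ} {F : ℕ → MvPolynomial (Fin (n + 1)) ℂ}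
    (hF : ∀ i, (F i).IsHomogeneous δ) (α : Fin (n + 1) →₀ ℕ) :
    coeff α (sqp δ F) = fun i => coeff α (F i) := by
  funext i
  have h1 := congrArg (coeff α) (sqp_ev hF i)
  rw [coeff_map] at h1
  exact h1

/-- polynomials with coefficients in the ring of sequences -/
noncomputable def seqPoly (N : ℕ) (P : ℕ → Polynomial ℂ) : Polynomial (ℕ → ℂ) :=
  ∑ a ∈ Finset.range (N + 1), Polynomial.C (fun i => (P i).coeff a) * Polynomial.X ^ a

theorem seqPoly_ev {N : ℕ} {P : ℕ → Polynomial ℂ} (hP : ∀ i, (P i).natDegree ≤ N) (i : ℕ) :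
    (seqPoly N P).map (Pi.evalRingHom (fun _ : ℕ => ℂ) i) = P i := by
  unfold seqPoly
  simp only [Polynomial.map_sum, Polynomial.map_mul, Polynomial.map_C, Polynomial.map_pow,
    Polynomial.map_X]
  exact ((P i).as_sum_range_C_mul_X_pow' (by have := hP i; omega)).symm

theorem seqPoly_deg {N : ℕ} {P : ℕ → Polynomial ℂ} : (seqPoly N P).natDegree ≤ N := by
  refine Polynomial.natDegree_sum_le_of_forall_le _ _ fun a ha => ?_
  have := Finset.mem_range.1 ha
  exact (Polynomial.natDegree_C_mul_X_pow_le _ _).trans (by omega)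

theorem seq_eq_zero {W : Polynomial (ℕ → ℂ)}
    (h : ∀ i, W.map (Pi.evalRingHom (fun _ : ℕ => ℂ) i) = 0) : W = 0 := by
  apply Polynomial.ext
  intro a
  funext i
  have h1 := congrArg (fun p => Polynomial.coeff p a) (h i)
  simp only [Polynomial.coeff_map, Polynomial.coeff_zero] at h1
  exact h1

/-- limits of nonzero polynomials of bounded degree -/
theorem seq_ne_zero {Θ : (ℕ → ℂ) →+* ℂ}
    (hΘ : ∀ f : ℕ → ℂ, (∃ n, ∀ i, n ≤ i → f i = 0) → Θ f = 0) {ι : Type} [Fintype ι]
    {W : ι → Polynomial (ℕ → ℂ)}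
    (h : ∀ i, ∃ j, (W j).map (Pi.evalRingHom (fun _ : ℕ => ℂ) i) ≠ 0) :
    ∃ j a, Θ ((W j).coeff a) ≠ 0 := by
  classical
  set B : ℕ := Finset.univ.sup fun j => (W j).natDegree with hB
  obtain ⟨⟨j, a⟩, ha⟩ := theta_ne hΘ (ι := ι × Fin (B + 1)) (fun p => (W p.1).coeff p.2) 0
    (fun i _ => by
      obtain ⟨j, hj⟩ := h i
      obtain ⟨a, ha⟩ : ∃ a, ((W j).coeff a) i ≠ 0 := by
        by_contra hcon
        push Not at hcon
        apply hj
        apply Polynomial.ext
        intro a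
        rw [Polynomial.coeff_map, Polynomial.coeff_zero]
        exact hcon a
      have h1 : a ≤ (W j).natDegree := by
        by_contra hlt
        push Not at hlt
        rw [Polynomial.coeff_eq_zero_of_natDegree_lt hlt] at ha
        exact ha rfl
      have h2 : (W j).natDegree ≤ B := Finset.le_sup (f := fun j => (W j).natDegree)
        (Finset.mem_univ j)
      exact ⟨(j, ⟨a, by omega⟩), ha⟩)
  exact ⟨j, a, ha⟩

/-- limits of monomials -/
theorem seq_mono {Θ : (ℕ → ℂ) →+* ℂ}
    (hΘ : ∀ f : ℕ → ℂ, (∃ n, ∀ i, n ≤ i → f i = 0) → Θ f = 0) {W : Polynomial (ℕ → ℂ)}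
    (h : ∀ i, ∃ (c : ℂ) (k : ℕ), c ≠ 0 ∧
      W.map (Pi.evalRingHom (fun _ : ℕ => ℂ) i) = Polynomial.C c * Polynomial.X ^ k) :
    ∃ (c : ℂ) (k : ℕ), c ≠ 0 ∧ W.map Θ = Polynomial.C c * Polynomial.X ^ k := by
  classical
  obtain ⟨-, a, ha⟩ := seq_ne_zero hΘ (ι := Unit) (W := fun _ => W) (fun i => by
    obtain ⟨c, k, hc, hk⟩ := h i
    refine ⟨(), ?_⟩
    rw [hk]
    exact mul_ne_zero (Polynomial.C_ne_zero.2 hc) (pow_ne_zero _ Polynomial.X_ne_zero))
  refine ⟨Θ (W.coeff a), a, ha, ?_⟩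
  apply Polynomial.ext
  intro b
  rw [Polynomial.coeff_map, Polynomial.coeff_C_mul, Polynomial.coeff_X_pow]
  split_ifs with hb
  · rw [hb, mul_one]
  · rw [mul_zero]
    have h1 : W.coeff b * W.coeff a = 0 := by
      funext i
      obtain ⟨c, k, hc, hk⟩ := h i
      have h2 : ∀ m, (W.coeff m) i = if m = k then c else 0 := by
        intro m
        have h3 := congrArg (fun p => Polynomial.coeff p m) hk
        simp only [Polynomial.coeff_map, Polynomial.coeff_C_mul, Polynomial.coeff_X_pow,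
          mul_ite, mul_one, mul_zero] at h3
        exact h3
      change (W.coeff b) i * (W.coeff a) i = 0
      rw [h2, h2]
      by_cases hbk : b = k
      · have hak : a ≠ k := fun h4 => hb (hbk.trans h4.symm)
        rw [if_neg hak, mul_zero]
      · rw [if_neg hbk, zero_mul]
    have h2 := congrArg Θ h1
    rw [map_mul, map_zero] at h2
    exact (mul_eq_zero.1 h2).resolve_right ha

/-- the constants in the prime field are fixed -/
theorem theta_fix (Θ : (ℕ → ℂ) →+* ℂ) (c : (⊥ : Subfield ℂ)) : Θ (fun _ => (c : ℂ)) = c := by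
  have h1 : (⊥ : Subfield ℂ) ≤ RingHom.eqLocusField (sg Θ) (RingHom.id ℂ) := bot_le
  exact h1 c.2

theorem countable_bot : Countable (⊥ : Subfield ℂ) := by
  rw [← Subfield.closure_empty, ← Cardinal.mk_le_aleph0_iff]
  refine (Subfield.cardinalMk_closure_le_max ∅).trans ?_
  rw [max_le_iff]
  exact ⟨by simp, le_rfl⟩

/-- **General hypersurfaces.** -/
theorem general (d : Fin q → ℕ) (Z : Finset (Fin q)) (hZ : 2 * n + 1 ≤ ∑ i, d i + Z.card)
    (N : ℕ) : ∃ Φ : MvPolynomial (CI n d) ℂ, Φ ≠ 0 ∧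
      ∀ F : Fin q → MvPolynomial (Fin (n + 1)) ℂ, (∀ i, (F i).IsHomogeneous (d i)) →
        eval (fun x : CI n d => coeff x.2.1 (F x.1)) Φ ≠ 0 →
        ∀ P, ¬ GmBdd (Ideal.span {G | ∃ i ∈ Z, G = F i}) (∏ i ∈ Finset.univ \ Z, F i) N P := by
  classical
  by_contra hcon
  push Not at hcon
  -- an enumeration of the polynomials with coefficients in the prime field
  have hfin : ∀ i, Finite {m : Fin (n + 1) →₀ ℕ // m.degree = d i} := by
    intro i
    have h1 : {m : Fin (n + 1) →₀ ℕ | m.degree = d i}.Finite := by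
      refine (Finsupp.finite_of_degree_le (d i)).subset ?_
      intro m hm
      exact le_of_eq hm
    exact h1
  have hfin' : Finite (CI n d) := inferInstance
  have hcb : Countable (⊥ : Subfield ℂ) := countable_bot
  have hc : Countable (MvPolynomial (CI n d) (⊥ : Subfield ℂ)) := by
    have := Finite.to_countable (α := CI n d)
    rw [← Cardinal.mk_le_aleph0_iff]
    refine MvPolynomial.cardinalMk_le_max.trans ?_
    rw [max_le_iff, max_le_iff]
    exact ⟨⟨Cardinal.mk_le_aleph0, Cardinal.mk_le_aleph0⟩, le_rfl⟩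
  let T : Type := {Φ : MvPolynomial (CI n d) (⊥ : Subfield ℂ) // Φ ≠ 0}
  have : Nonempty T := ⟨⟨1, one_ne_zero⟩⟩
  obtain ⟨e, he⟩ := exists_surjective_nat T
  let Ψ : ℕ → MvPolynomial (CI n d) (⊥ : Subfield ℂ) := fun i =>
    ∏ j ∈ Finset.range (i + 1), (e j).1
  have hΨ : ∀ i, map (algebraMap (⊥ : Subfield ℂ) ℂ) (Ψ i) ≠ 0 := by
    intro i h0
    have h1 : Ψ i = 0 := map_injective _ (algebraMap (⊥ : Subfield ℂ) ℂ).injective
      (h0.trans (map_zero _).symm)
    exact (Finset.prod_ne_zero_iff.2 fun j _ => (e j).2) h1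
  choose F hF hFe P hP using fun i => hcon _ (hΨ i)
  have hFj : ∀ i j, j ≤ i → aeval (fun x : CI n d => coeff x.2.1 (F i x.1)) (e j).1 ≠ 0 := by
    intro i j hij h0
    apply hFe i
    rw [eval_map, ← aeval_def]
    simp only [Ψ]
    rw [map_prod]
    exact Finset.prod_eq_zero (Finset.mem_range.2 (by omega)) h0
  -- the limit
  obtain ⟨Θ, -, hΘ⟩ := exists_theta
  let FL : Fin q → MvPolynomial (Fin (n + 1)) ℂ := fun l => map Θ (sqp (d l) fun i => F i l)
  have hFLh : ∀ l, (FL l).IsHomogeneous (d l) := fun l => (sqp_hom _ _).map Θ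
  have hFLc : ∀ l α, coeff α (FL l) = Θ fun i => coeff α (F i l) := by
    intro l α
    simp only [FL]
    rw [coeff_map, coeff_sqp fun i => hF i l]
  have hind : AlgebraicIndependent (⊥ : Subfield ℂ)
      (fun x : CI n d => coeff x.2.1 (FL x.1)) := by
    rw [algebraicIndependent_iff]
    intro Φ hΦ
    by_contra h0
    obtain ⟨j, hj⟩ := he ⟨Φ, h0⟩
    have h1 := theta_ne hΘ (ι := Unit)
      (fun _ i => aeval (fun x : CI n d => coeff x.2.1 (F i x.1)) Φ) j (fun i hi => ⟨(), by
        have := hFj i j hi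
        rwa [hj] at this⟩)
    obtain ⟨-, h1⟩ := h1
    apply h1
    rw [← hΦ]
    let ψ : (⊥ : Subfield ℂ) →+* (ℕ → ℂ) := algebraMap _ _
    have h2 : (fun i => aeval (fun x : CI n d => coeff x.2.1 (F i x.1)) Φ) =
        eval₂ ψ (fun (x : CI n d) i => coeff x.2.1 (F i x.1)) Φ := by
      funext i
      have h3 := eval₂_comp_left (Pi.evalRingHom (fun _ : ℕ => ℂ) i) ψ
        (fun (x : CI n d) i => coeff x.2.1 (F i x.1)) Φ
      exact h3.symm
    rw [h2, eval₂_comp_left, aeval_def]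
    congr 1
    · ext c
      exact theta_fix Θ c
    · funext x
      exact (hFLc _ _).symm
  let π : Fin (n + 1) → Polynomial (ℕ → ℂ) := fun l => seqPoly N fun i => P i l
  have hπev : ∀ i, (fun l => (π l).map (Pi.evalRingHom (fun _ : ℕ => ℂ) i)) = P i := fun i =>
    funext fun l => seqPoly_ev (fun i => (hP i).deg l) i
  let PL : Fin (n + 1) → Polynomial ℂ := fun l => (π l).map Θ
  have hlim : GmBdd (Ideal.span {G | ∃ i ∈ Z, G = FL i}) (∏ i ∈ Finset.univ \ Z, FL i) N PL := by
    refine ⟨fun l => (Polynomial.natDegree_map_le).trans seqPoly_deg, fun G hG _ => ?_, ?_, ?_⟩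
    · have h1 : Ideal.span {G | ∃ i ∈ Z, G = FL i} ≤ RingHom.ker
          (aeval PL : MvPolynomial (Fin (n + 1)) ℂ →ₐ[ℂ] Polynomial ℂ) := by
        rw [Ideal.span_le]
        rintro _ ⟨l, hl, rfl⟩
        change aeval PL (FL l) = 0
        have h2 : aeval π (sqp (d l) fun i => F i l) = 0 := by
          apply seq_eq_zero
          intro i
          rw [map_aeval_pol, hπev, sqp_ev fun i => hF i l]
          exact (hP i).mem _ (Ideal.subset_span ⟨l, hl, rfl⟩) ⟨d l, hF i l⟩
        have h3 := map_aeval_pol Θ π (sqp (d l) fun i => F i l)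
        rw [h2, Polynomial.map_zero] at h3
        exact h3.symm
      exact h1 hG
    · have h1 : ∃ (c : ℂ) (k : ℕ), c ≠ 0 ∧
          (aeval π (∏ l ∈ Finset.univ \ Z, sqp (d l) fun i => F i l)).map Θ
            = Polynomial.C c * Polynomial.X ^ k := by
        apply seq_mono hΘ
        intro i
        obtain ⟨c, k, hc, hk⟩ := (hP i).off
        refine ⟨c, k, hc, ?_⟩
        rw [map_aeval_pol, hπev, map_prod]
        rw [← hk]
        congr 1
        exact Finset.prod_congr rfl fun l _ => sqp_ev (fun i => hF i l) i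
      obtain ⟨c, k, hc, hk⟩ := h1
      refine ⟨c, k, hc, ?_⟩
      have h2 : map Θ (∏ l ∈ Finset.univ \ Z, sqp (d l) fun i => F i l)
          = ∏ l ∈ Finset.univ \ Z, FL l := map_prod _ _ _
      rw [← hk, map_aeval_pol, h2]
    · apply nc_of_wr
      let W : Fin (n + 1) × Fin (n + 1) → Polynomial (ℕ → ℂ) := fun p =>
        Polynomial.derivative (π p.1) * π p.2 - π p.1 * Polynomial.derivative (π p.2)
      have hWm : ∀ (φ : (ℕ → ℂ) →+* ℂ) p, (W p).map φ = Polynomial.derivative ((π p.1).map φ) *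
          (π p.2).map φ - (π p.1).map φ * Polynomial.derivative ((π p.2).map φ) := by
        intro φ p
        simp only [W, Polynomial.map_sub, Polynomial.map_mul, Polynomial.derivative_map]
      obtain ⟨⟨j, k⟩, a, ha⟩ := seq_ne_zero hΘ (W := W) (fun i => by
        by_contra hcon2
        push Not at hcon2
        obtain ⟨s, t, j, k, hst⟩ := (hP i).nc
        apply hst
        apply Pool.Agent.TH182.VD.wronsk
        have h1 := hcon2 (k, j)
        rw [hWm] at h1
        have h2 := congrFun (hπev i)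
        have h3 := sub_eq_zero.1 h1
        simp only at h2 h3
        rw [h2 j, h2 k] at h3
        linear_combination h3)
      refine ⟨j, k, fun h0 => ha ?_⟩
      have h1 := hWm Θ (j, k)
      rw [sub_eq_zero.2 h0] at h1
      rw [← Polynomial.coeff_map, h1, Polynomial.coeff_zero]
  have hQh : (∏ i ∈ Finset.univ \ Z, FL i).IsHomogeneous (∑ i ∈ Finset.univ \ Z, d i) :=
    IsHomogeneous.prod _ _ _ fun i _ => hFLh i
  obtain ⟨-, P', -, -, hpr⟩ := hlim.prim hQh
  refine no_gm ⊥ d FL hFLh hind Z hZ P' ⟨fun t _ => hpr.ne t, fun t ht => ⟨fun i => ?_,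
    hpr.off t ht⟩, ?_⟩
  · exact hpr.mem t _ (Ideal.subset_span ⟨i.1, i.2, rfl⟩) ⟨_, hFLh i.1⟩
  · obtain ⟨s, t, j, k, hs, ht, hst⟩ := hpr.nc
    exact ⟨s, t, hs, ht, j, k, hst⟩

end Pool.Agent.V1153.GH
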