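import Pool.Agent.V1153.GH.Cst
import Pool.Agent.V1153.XS.OrbT

/-!
General hypersurfaces and powers with large exponents.
-/

set_option autoImplicit false

namespace Pool.Agent.V1153.GH

open MvPolynomial Pool.Agent.V1153.UG Pool.Agent.V1153.XS
open Pool.Agent.TH182.VD (CI)

variable {n q : ℕ}

/-- **General forms of total degree at least `2 n + 1`.** -/
theorem gen_orb (d : Fin q → ℕ) (hd : 2 * n + 1 ≤ ∑ i, d i) (r e : ℕ) :
    ∃ (m₀ : ℕ) (Φ : MvPolynomial (CI n d) ℂ), Φ ≠ 0 ∧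
      ∀ F : Fin q → MvPolynomial (Fin (n + 1)) ℂ, (∀ i, (F i).IsHomogeneous (d i)) →
        eval (fun x : CI n d => coeff x.2.1 (F x.1)) Φ ≠ 0 →
        ∀ (k : ℕ) (g : (Fin k → ℂ) → Fin (n + 1) → ℂ), (∀ j, ExpSum k r e fun z => g z j) →
          (∀ i, (∀ z, eval (g z) (F i) ≠ 0) ∨ ∃ (m : ℕ) (h : (Fin k → ℂ) → ℂ), m₀ ≤ m ∧
            Differentiable ℂ h ∧ ∀ z, eval (g z) (F i) = h z ^ m) →
            ∀ z w j l, g z j * g w l = g z l * g w j := by
  classical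
  set D : ℕ := ∑ i, d i with hD
  have hdD : ∀ i, d i ≤ D := fun i =>
    Finset.single_le_sum (f := d) (fun _ _ => Nat.zero_le _) (Finset.mem_univ i)
  obtain ⟨N, hN⟩ := map_point2 n D r e
  choose Φ hΦ0 hΦ using fun Z : Finset (Fin q) =>
    general (n := n) d Z (hd.trans (Nat.le_add_right _ _)) N
  refine ⟨((D + 1) ^ ((n + 1) * (r * (e + 1)))) ^ 2, ∏ Z, Φ Z,
    Finset.prod_ne_zero_iff.2 fun Z _ => hΦ0 Z, fun F hF hFΦ k g hg hor => ?_⟩
  by_contra hcon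
  push Not at hcon
  obtain ⟨z, w, j, l, hne⟩ := hcon
  obtain ⟨x, hx⟩ : ∃ x, g x ≠ 0 := by
    by_contra h0
    push Not at h0
    apply hne
    rw [h0 z, h0 w]
    rfl
  let Z : Finset (Fin q) := Finset.univ.filter fun i => ∀ z, eval (g z) (F i) = 0
  have hZ1 : ∀ i ∈ Z, ∀ z, eval (g z) (F i) = 0 := fun i hi => (Finset.mem_filter.1 hi).2
  have hZ2 : ∀ i, i ∉ Z → ∀ z, eval (g z) (F i) ≠ 0 := by
    intro i hi z
    rcases hor i with h1 | ⟨m, h, hm, hh, heq⟩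
    · exact h1 z
    · have hm0 : m ≠ 0 := by
        have h1 : 0 < ((D + 1) ^ ((n + 1) * (r * (e + 1)))) ^ 2 := by positivity
        omega
      have h1 : ∃ z, h z ≠ 0 := by
        by_contra h0
        push Not at h0
        refine hi (Finset.mem_filter.2 ⟨Finset.mem_univ i, fun z => ?_⟩)
        rw [heq, h0, zero_pow hm0]
      rw [heq]
      exact pow_ne_zero _ (pow_unit_mv (hF i) (hdD i) hg hh hm heq h1 z)
  obtain ⟨P, hP, -⟩ := hN {G | ∃ i ∈ Z, G = F i} (∏ i ∈ Finset.univ \ Z, F i)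
    ⟨by
      rintro _ ⟨i, -, rfl⟩
      exact ⟨d i, hdD i, hF i⟩, ∑ i ∈ Finset.univ \ Z, d i,
      Finset.sum_le_sum_of_subset (Finset.sdiff_subset), IsHomogeneous.prod _ _ _ fun i _ => hF i⟩
    k g hg (by
      rintro z _ ⟨i, hi, rfl⟩
      exact hZ1 i hi z) (fun z => by
      rw [map_prod]
      exact Finset.prod_ne_zero_iff.2 fun i hi => hZ2 i (Finset.mem_sdiff.1 hi).2 z)
    ⟨z, w, j, l, hne⟩ x hx
  refine hΦ Z F hF (fun h0 => hFΦ ?_) P hP
  rw [map_prod]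
  exact Finset.prod_eq_zero (Finset.mem_univ Z) h0

end Pool.Agent.V1153.GH
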