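import Pool.Agent.V1153.GH.Gen

/-!
General hypersurfaces contain no rational curves of bounded degree.
-/

set_option autoImplicit false

namespace Pool.Agent.V1153.GH

open MvPolynomial Pool.Agent.V1153.UG
open Pool.Agent.TH182.VD (CI)

variable {n : ℕ}

/-- a form with given coefficients -/
theorem exists_form (d : ℕ) (c : (Fin (n + 1) →₀ ℕ) → ℂ) :
    ∃ F : MvPolynomial (Fin (n + 1)) ℂ, F.IsHomogeneous d ∧ ∀ α, α.degree = d → coeff α F = c α := by
  classical
  refine ⟨∑ u ∈ (Finset.univ : Finset (Fin (n + 1))).finsuppAntidiag d, monomial u (c u),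
    IsHomogeneous.sum _ _ _ fun u hu => ?_, fun α hα => ?_⟩
  · apply isHomogeneous_monomial
    rw [Finsupp.degree_eq_sum]
    exact mem_anti.1 hu
  · rw [coeff_sum]
    simp only [coeff_monomial]
    rw [Finset.sum_ite_eq', if_pos]
    rw [mem_anti, ← hα, Finsupp.degree_eq_sum]

/-- the coefficients of a general form of degree at least `2 n` -/
theorem gen_hyp {d : ℕ} (hd : 2 * n ≤ d) (N : ℕ) :
    ∃ Φ : MvPolynomial (Fin (n + 1) →₀ ℕ) ℂ,
      (∃ F₀ : MvPolynomial (Fin (n + 1)) ℂ, F₀.IsHomogeneous d ∧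
        eval (fun m => coeff m F₀) Φ ≠ 0) ∧
      ∀ F : MvPolynomial (Fin (n + 1)) ℂ, F.IsHomogeneous d → eval (fun m => coeff m F) Φ ≠ 0 →
        ∀ P, ¬ GmBdd (Ideal.span {F}) 1 N P := by
  classical
  obtain ⟨Φ, hΦ, h⟩ := general (n := n) (q := 1) (fun _ => d) Finset.univ (by simp; omega) N
  refine ⟨rename (fun x : CI n (fun _ : Fin 1 => d) => x.2.1) Φ, ?_, fun F hF hFΦ P hP => ?_⟩
  · obtain ⟨c, hc⟩ : ∃ c, eval c Φ ≠ 0 := by
      by_contra hcon
      push Not at hcon
      exact hΦ (MvPolynomial.funext fun c => by rw [hcon, map_zero])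
    obtain ⟨F₀, h1, h2⟩ := exists_form (n := n) d fun α =>
      if hα : α.degree = d then c ⟨0, α, hα⟩ else 0
    refine ⟨F₀, h1, ?_⟩
    rw [eval_rename]
    have h3 : ((fun m => coeff m F₀) ∘ fun x : CI n (fun _ : Fin 1 => d) => x.2.1) = c := by
      funext x
      obtain ⟨i, α, hα⟩ := x
      have hi : i = 0 := Subsingleton.elim _ _
      subst hi
      change coeff α F₀ = _
      rw [h2 α hα, dif_pos hα]
    rw [h3]
    exact hc
  · refine h (fun _ => F) (fun _ => hF) ?_ P ?_
    · rw [eval_rename] at hFΦ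
      exact hFΦ
    · have h1 : {G | ∃ i ∈ (Finset.univ : Finset (Fin 1)), G = F} = {F} := by
        ext G
        simp
      rw [Finset.sdiff_self, Finset.prod_empty, h1]
      exact hP

end Pool.Agent.V1153.GH
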